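import Pool.Agent.N554.HKS.Def

/-!
# HK/FP: the infinite word is a fixed point of a primitive morphism
-/

set_option autoImplicit false

namespace Pool.Agent.N657.HKS

open Pool.Agent.N554.HKS

lemma ext_append {A B : Type*} (f : A → List B) (s t : List A) :
    ext f (s ++ t) = ext f s ++ ext f t := by
  unfold ext
  exact List.flatMap_append

lemma ext_cons {A B : Type*} (f : A → List B) (a : A) (s : List A) :
    ext f (a :: s) = f a ++ ext f s := by
  unfold ext
  exact List.flatMap_cons

lemma phi_sigma (y : Fin 6) : ext phi (sigma y) = ext sigma (theta y) := by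
  revert y
  decide +kernel

lemma phi_ext (s : List (Fin 6)) : ext phi (ext sigma s) = ext sigma (ext theta s) := by
  induction s with
  | nil => rfl
  | cons y s ih => rw [ext_cons, ext_append, ih, ext_cons, ext_append, phi_sigma]

lemma seg_length {A : Type*} (v : ℕ → A) (i n : ℕ) : (seg v i n).length = n := by
  unfold seg
  rw [List.length_map, List.length_range]

lemma seg_take {A : Type*} (v : ℕ → A) {k n : ℕ} (h : k ≤ n) :
    (seg v 0 n).take k = seg v 0 k := by
  unfold seg
  rw [← List.map_take, List.take_range, min_eq_left h]

lemma len_sigma (s : List (Fin 6)) : s.length ≤ (ext sigma s).length := by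
  induction s with
  | nil => exact Nat.zero_le _
  | cons y s ih =>
    rw [ext_cons, List.length_append, List.length_cons]
    have h : 1 ≤ (sigma y).length := by
      revert y
      decide +kernel
    omega

theorem FP_of (hI : IMG) (hW : WST) : FP := by
  refine ⟨⟨2, by norm_num, by decide +kernel⟩, fun n => ?_⟩
  have hU : ∀ N, seg u 0 (ext sigma (seg w 0 N)).length = ext sigma (seg w 0 N) := by
    intro N
    refine hI (Fin 6) (Fin 7) inferInstance sigma ?_ w N
    decide +kernel
  have hn : n ≤ (ext sigma (seg w 0 n)).length := by
    have := len_sigma (seg w 0 n)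
    rwa [seg_length] at this
  have h1 : ext sigma (seg w 0 n) = seg u 0 n ++ (ext sigma (seg w 0 n)).drop n := by
    conv_lhs => rw [← List.take_append_drop n (ext sigma (seg w 0 n))]
    congr 1
    rw [← hU n]
    exact seg_take u hn
  have h2 : ext phi (seg u 0 n) ++ ext phi ((ext sigma (seg w 0 n)).drop n) =
      seg u 0 (ext sigma (seg w 0 (22 * n))).length := by
    rw [← ext_append, ← h1, phi_ext, hU]
    have := hW.2 0 n
    rw [Nat.mul_zero] at this
    rw [this]
  refine ⟨(ext phi (seg u 0 n)).length, ?_⟩
  have h3 : (ext phi (seg u 0 n)).length ≤ (ext sigma (seg w 0 (22 * n))).length := by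
    have := congrArg List.length h2
    rw [List.length_append, seg_length] at this
    omega
  rw [← seg_take u h3, ← h2, List.take_left']
  rfl

end Pool.Agent.N657.HKS
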